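import Pool.Agent.Q174.Wv.Asym
import Pool.Agent.Q174.Wv.Closed

set_option autoImplicit false

/-!
Asymptotics of the twist numbers of the weaving links `W(n + 1, m)` for `m → ∞`.
-/

namespace Pool.Agent.Results.MP_592c03_gt.TwistAsymptotics

open Pool.Agent.Q174.Wv Pool.Agent.H891R2.Jones Filter Topology

/-- The diagrams `weaving n m` of the weaving links `W(n + 1, m)` are closed, and for all fixed
`n ≥ 2` and `k ≥ 1` the quotient of the `k`-th twist number of `W(n + 1, m)` and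
`((r + d) ^ k + r ^ k) m ^ k / k!`, where `d = n % 2` and `r = n / 2`, tends to `1` as `m → ∞`
(the index `m ≥ 1` is written as `m + 1` with `m ≥ 0`). -/
theorem result (n : ℕ) (hn : 2 ≤ n) (k : ℕ) (hk : 1 ≤ k) :
    (∀ m : ℕ, (weaving n (m + 1)).IsClosed) ∧
    Tendsto (fun m : ℕ => (twist (weaving n (m + 1)).fPoly k : ℝ) /
        ((((n / 2 + n % 2 : ℕ) : ℝ) ^ k + ((n / 2 : ℕ) : ℝ) ^ k) * ((m + 1 : ℕ) : ℝ) ^ k /
          (k.factorial : ℝ)))
      atTop (𝓝 1) := by
  refine ⟨fun m => closed, ?_⟩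
  have h := lim_twist n hn k hk
  set L : ℝ := (((n / 2 + n % 2 : ℕ) : ℝ) ^ k + ((n / 2 : ℕ) : ℝ) ^ k) with hL
  have h1 : 1 ≤ n / 2 := by omega
  have h2 : (0 : ℝ) < ((n / 2 : ℕ) : ℝ) := by exact_mod_cast h1
  have hL0 : 0 < L := by rw [hL]; positivity
  have hf : (0 : ℝ) < (k.factorial : ℝ) := by positivity
  have h3 := h.div_const (L / (k.factorial : ℝ))
  rw [div_self (by positivity)] at h3
  refine h3.congr fun m => ?_
  rw [div_div]
  congr 1
  ring

end Pool.Agent.Results.MP_592c03_gt.TwistAsymptotics
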